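import Pool.Agent.X172.GR.Stm

set_option autoImplicit false

namespace Pool.Agent.X208.GR

open Pool.Agent.X172.GR

theorem rd_append (T : ℕ → Fin 6) (a b : List Ltr) : ∀ i, Rd T i (a ++ b) ↔
    Rd T i a ∧ Rd T (i + a.length) b := by
  induction a with
  | nil => intro i; simp [Rd]
  | cons x a ih =>
    intro i
    simp only [List.cons_append, Rd, List.length_cons]
    rw [ih (i + 1), and_assoc, show i + (a.length + 1) = i + 1 + a.length by omega]

theorem rd_eq (T : ℕ → Fin 6) (w : List Ltr) : ∀ i k, Rd T i w → Rd T k w →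
    ∀ j, j < w.length → T (i + j) = T (k + j) := by
  induction w with
  | nil => intro i k _ _ j hj; simp at hj
  | cons x w ih =>
    intro i k h1 h2 j hj
    simp only [Rd] at h1 h2
    rcases j with _ | j
    · rw [add_zero, add_zero, ← h1.1, ← h2.1]
    · have := ih (i + 1) (k + 1) h1.2 h2.2 j (by simpa using hj)
      rw [show i + (j + 1) = i + 1 + j by omega, show k + (j + 1) = k + 1 + j by omega]
      exact this

theorem t_LOOP : S_LOOP := by
  intro n T hn hT s hs hr
  obtain ⟨i, hi⟩ := hr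
  have h1 := (rd_append T s s i).1 hi
  have hp : 0 < s.length := List.length_pos_iff.2 hs
  have hdvd : n ∣ s.length := by
    by_contra hnd
    obtain ⟨j, hj, hne⟩ := hT.sqf i s.length hp hnd
    exact hne (rd_eq T s i (i + s.length) h1.1 h1.2 j hj)
  have hle : n ≤ s.length := Nat.le_of_dvd hp hdvd
  refine ⟨hdvd, Or.inr ⟨s.take n, ?_, List.take_prefix _ _, Or.inr ?_⟩,
    Or.inr (Or.inr ⟨none, 0, s.drop (s.length - n), s.drop (s.length - n), ?_, ?_, Or.inl rfl⟩)⟩
  · exact (List.take_prefix _ _).trans (List.prefix_append _ _)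
  · rw [List.length_take]
    omega
  · refine ⟨s ++ s, ⟨i, hi⟩, ?_, ?_, ?_, ?_, Or.inl ⟨rfl, rfl⟩⟩
    · rw [List.length_append]; omega
    · rw [List.length_append]
      exact Nat.mod_eq_zero_of_dvd (hdvd.add hdvd)
    · exact (List.drop_suffix _ _).trans (List.suffix_append _ _)
    · rw [List.length_drop]; omega
  · refine ⟨s, ⟨i, h1.1⟩, hle, Nat.mod_eq_zero_of_dvd hdvd, List.drop_suffix _ _, ?_,
      Or.inl ⟨rfl, rfl⟩⟩
    rw [List.length_drop]; omega

end Pool.Agent.X208.GR
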